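import Pool.Agent.R769.MN.Comb

/-!
# Three edges and a vertex pairwise far from each other

A graph with minimum degree at least three (apart from isolated vertices), without circuits with
three or four edges and with at least 18 vertices which are not isolated has three edges and a
vertex such that no two of the four are equal, share a vertex or are joined by an edge.
-/

set_option autoImplicit false
set_option linter.unusedSectionVars false

namespace Pool.Agent.U875.TP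

open Finset Pool.Agent.R769.MN

variable {V : Type} [Fintype V] [DecidableEq V] {G : SimpleGraph V} [DecidableRel G.Adj]

/-- the vertices are different and not adjacent -/
def Far (G : SimpleGraph V) (a b : V) : Prop := a ≠ b ∧ ¬ G.Adj a b

theorem Far.symm {a b : V} (h : Far G a b) : Far G b a := ⟨h.1.symm, fun h' => h.2 h'.symm⟩

/-- the edges `a b` and `c d` are far -/
def FarE (G : SimpleGraph V) (a b c d : V) : Prop :=
  Far G a c ∧ Far G a d ∧ Far G b c ∧ Far G b d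

theorem FarE.symm {a b c d : V} (h : FarE G a b c d) : FarE G c d a b :=
  ⟨h.1.symm, h.2.2.1.symm, h.2.1.symm, h.2.2.2.symm⟩

/-- on a circuit of length five in `R` there is no edge leaving it, if `R` has no two far edges -/
theorem five_aux (tri : ∀ a b c, G.Adj a b → G.Adj b c → G.Adj c a → False)
    (four : ∀ a b c d, a ≠ c → b ≠ d → G.Adj a b → G.Adj b c → G.Adj c d → G.Adj d a → False)
    {R : Finset V} (hno : ∀ a ∈ R, ∀ b ∈ R, ∀ c ∈ R, ∀ d ∈ R, G.Adj a b → G.Adj c d →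
      ¬ FarE G a b c d) {p q a r b z : V} (hp : p ∈ R) (ha : a ∈ R) (hr : r ∈ R) (hz : z ∈ R)
    (h1 : G.Adj p q) (h2 : G.Adj q a) (h3 : G.Adj a r) (h4 : G.Adj r b) (h5 : G.Adj b p)
    (hpa : p ≠ a) (hpr : p ≠ r) (hzq : z ≠ q) (hza : z ≠ a) (hzr : z ≠ r) (hzb : z ≠ b)
    (hzp : G.Adj z p) : False := by
  refine hno z hz p hp a ha r hr hzp h3 ⟨⟨hza, ?_⟩, ⟨hzr, ?_⟩, ⟨hpa, ?_⟩, ⟨hpr, ?_⟩⟩
  · intro h
    exact four z p q a hzq hpa hzp h1 h2 h.symm
  · intro h
    exact four z p b r hzb hpr hzp h5.symm h4.symm h.symm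
  · intro h
    exact tri p q a h1 h2 h.symm
  · intro h
    exact tri p b r h5.symm h4.symm h.symm

/-- **two far edges** -/
theorem two_far (tri : ∀ a b c, G.Adj a b → G.Adj b c → G.Adj c a → False)
    (four : ∀ a b c d, a ≠ c → b ≠ d → G.Adj a b → G.Adj b c → G.Adj c d → G.Adj d a → False)
    {R : Finset V} (hR : ∀ r ∈ R, ∃ r' ∈ R, G.Adj r r') (hd : ∀ r ∈ R, (Nn G r).card ≤ 3)
    (hc : 7 ≤ R.card) :
    ∃ a ∈ R, ∃ b ∈ R, ∃ c ∈ R, ∃ d ∈ R, G.Adj a b ∧ G.Adj c d ∧ FarE G a b c d := by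
  classical
  by_contra hcon
  have hno : ∀ a ∈ R, ∀ b ∈ R, ∀ c ∈ R, ∀ d ∈ R, G.Adj a b → G.Adj c d → ¬ FarE G a b c d := by
    intro a ha b hb c hc' d hd' h1 h2 h3
    exact hcon ⟨a, ha, b, hb, c, hc', d, hd', h1, h2, h3⟩
  set P : Finset (V × V) := (R ×ˢ R).filter (fun x => G.Adj x.1 x.2) with hP
  have hPne : P.Nonempty := by
    obtain ⟨r, hr⟩ := card_pos.1 (show 0 < R.card by omega)
    obtain ⟨r', hr', h⟩ := hR r hr
    exact ⟨(r, r'), mem_filter.2 ⟨mem_product.2 ⟨hr, hr'⟩, h⟩⟩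
  obtain ⟨⟨p, q⟩, hpq, hmax⟩ := Finset.exists_max_image P
    (fun x => (Nn G x.1 ∩ R).card + (Nn G x.2 ∩ R).card) hPne
  obtain ⟨hpq1, hadj⟩ := mem_filter.1 hpq
  obtain ⟨hp, hq⟩ := mem_product.1 hpq1
  simp only at hadj hp hq hmax
  -- the case in which the edge dominates
  by_cases hdom : ∀ r ∈ R, r ∈ Nn G p ∨ r ∈ Nn G q
  · have h1 : R ⊆ Nn G p ∪ Nn G q := fun r hr => mem_union.2 (hdom r hr)
    have h2 := (card_le_card h1).trans (card_union_le _ _)
    have h3 := hd p hp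
    have h4 := hd q hq
    omega
  push Not at hdom
  obtain ⟨r, hr, hrp, hrq⟩ := hdom
  rw [mem_Nn] at hrp hrq
  have hrp' : r ≠ p := fun h => hrq (h ▸ hadj.symm)
  have hrq' : r ≠ q := fun h => hrp (h ▸ hadj)
  -- the main step
  have step : ∀ p q : V, p ∈ R → q ∈ R → G.Adj p q →
      (∀ x y, (x, y) ∈ P → (Nn G x ∩ R).card + (Nn G y ∩ R).card ≤
        (Nn G p ∩ R).card + (Nn G q ∩ R).card) → ¬ G.Adj p r → ¬ G.Adj q r → r ≠ p → r ≠ q →
      ∀ r' ∈ R, G.Adj r r' → G.Adj p r' → False := by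
    intro p q hp hq hadj hmax hrp hrq hrp' hrq' r' hr' hrr' hpr'
    have hr'q : r' ≠ q := fun h => hrq (h ▸ hrr'.symm)
    by_cases hq2 : ∃ a ∈ R, G.Adj q a ∧ a ≠ p
    · obtain ⟨a, ha, hqa, hap⟩ := hq2
      have har : G.Adj a r := by
        by_contra h
        refine hno q hq a ha r hr r' hr' hqa hrr' ⟨⟨hrq'.symm, hrq⟩, ⟨hr'q.symm, ?_⟩, ⟨?_, h⟩,
          ⟨?_, ?_⟩⟩
        · intro h'
          exact tri p q r' hadj h' hpr'.symm
        · intro h'
          exact hrq (h' ▸ hqa)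
        · intro h'
          exact tri p q a hadj hqa (h' ▸ hpr'.symm)
        · intro h'
          exact four p q a r' hap.symm hr'q.symm hadj hqa h' hpr'.symm
      -- the circuit p q a r r'
      have hra : r ≠ a := fun h => hrq (h ▸ hqa)
      have har' : a ≠ r' := fun h => tri p q a hadj hqa (h ▸ hpr'.symm)
      have hpr'n : p ≠ r' := fun h => hrp (h ▸ hrr'.symm)
      have claim : ∀ z ∈ R, z ≠ p → z ≠ q → z ≠ a → z ≠ r → z ≠ r' →
          ¬ G.Adj z p ∧ ¬ G.Adj z q ∧ ¬ G.Adj z a ∧ ¬ G.Adj z r ∧ ¬ G.Adj z r' := by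
        intro z hz z1 z2 z3 z4 z5
        refine ⟨fun h => ?_, fun h => ?_, fun h => ?_, fun h => ?_, fun h => ?_⟩
        · exact five_aux tri four hno hp ha hr hz hadj hqa har hrr' hpr'.symm hap.symm hrp'.symm
            z2 z3 z4 z5 h
        · exact five_aux tri four hno hq hr hr' hz hqa har hrr' hpr'.symm hadj hrq'.symm hr'q.symm
            z3 z4 z5 z1 h
        · exact five_aux tri four hno ha hr' hp hz har hrr' hpr'.symm hadj hqa har' hap
            z4 z5 z1 z2 h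
        · exact five_aux tri four hno hr hp hq hz hrr' hpr'.symm hadj hqa har hrp' hrq'
            z5 z1 z2 z3 h
        · exact five_aux tri four hno hr' hq ha hz hpr'.symm hadj hqa har hrr' hr'q har'.symm
            z1 z2 z3 z4 h
      have hsub : R ⊆ {p, q, a, r, r'} := by
        intro z hz
        by_contra hz'
        simp only [mem_insert, mem_singleton, not_or] at hz'
        obtain ⟨z1, z2, z3, z4, z5⟩ := hz'
        obtain ⟨c1, c2, c3, c4, c5⟩ := claim z hz z1 z2 z3 z4 z5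
        obtain ⟨y, hy, hzy⟩ := hR z hz
        have y1 : y ≠ p := fun h => c1 (h ▸ hzy)
        have y2 : y ≠ q := fun h => c2 (h ▸ hzy)
        have y3 : y ≠ a := fun h => c3 (h ▸ hzy)
        have y4 : y ≠ r := fun h => c4 (h ▸ hzy)
        have y5 : y ≠ r' := fun h => c5 (h ▸ hzy)
        obtain ⟨d1, d2, -, -, -⟩ := claim y hy y1 y2 y3 y4 y5
        exact hno z hz y hy p hp q hq hzy hadj ⟨⟨z1, c1⟩, ⟨z2, c2⟩, ⟨y1, d1⟩, ⟨y2, d2⟩⟩
      have h1 := card_le_card hsub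
      have h2 : ({p, q, a, r, r'} : Finset V).card ≤ 5 := card_le_five
      omega
    · push Not at hq2
      have h1 := hmax p r' (mem_filter.2 ⟨mem_product.2 ⟨hp, hr'⟩, hpr'⟩)
      have h2 : (Nn G q ∩ R).card ≤ 1 := by
        rw [card_le_one]
        intro x hx y hy
        rw [mem_inter, mem_Nn] at hx hy
        rw [hq2 x hx.2 hx.1, hq2 y hy.2 hy.1]
      have h3 : 2 ≤ (Nn G r' ∩ R).card := by
        have h4 : ({p, r} : Finset V) ⊆ Nn G r' ∩ R := by
          intro x hx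
          rw [mem_insert, mem_singleton] at hx
          rw [mem_inter, mem_Nn]
          rcases hx with rfl | rfl
          · exact ⟨hpr'.symm, hp⟩
          · exact ⟨hrr'.symm, hr⟩
        have h5 := card_le_card h4
        rwa [card_pair hrp'.symm] at h5
      omega
  obtain ⟨r', hr', hrr'⟩ := hR r hr
  have hmax' : ∀ x y, (x, y) ∈ P → (Nn G x ∩ R).card + (Nn G y ∩ R).card ≤
      (Nn G p ∩ R).card + (Nn G q ∩ R).card := fun x y h => hmax (x, y) h
  by_cases h1 : G.Adj p r'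
  · exact step p q hp hq hadj hmax' hrp hrq hrp' hrq' r' hr' hrr' h1
  by_cases h2 : G.Adj q r'
  · exact step q p hq hp hadj.symm (fun x y h => by rw [add_comm (Nn G q ∩ R).card]; exact hmax' x y h)
      hrq hrp hrq' hrp' r' hr' hrr' h2
  · refine hno p hp q hq r hr r' hr' hadj hrr' ⟨⟨hrp'.symm, hrp⟩, ⟨?_, h1⟩, ⟨hrq'.symm, hrq⟩,
      ⟨?_, h2⟩⟩
    · intro h
      exact hrp (h ▸ hrr'.symm)
    · intro h
      exact hrq (h ▸ hrr'.symm)

/-- three edges `x y`, `a b`, `c d` and a vertex `v` pairwise far from each other -/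
def Config (G : SimpleGraph V) (x y a b c d v : V) : Prop :=
  (∃ w, G.Adj v w) ∧ G.Adj x y ∧ G.Adj a b ∧ G.Adj c d ∧ FarE G x y a b ∧ FarE G x y c d ∧ FarE G a b c d ∧
    (Far G v x ∧ Far G v y) ∧ (Far G v a ∧ Far G v b) ∧ (Far G v c ∧ Far G v d)

/-- **three edges and a vertex pairwise far from each other** -/
theorem three_far (T : Finset V) (hT : ∀ x, x ∈ T ↔ ∃ y, G.Adj x y)
    (h3 : ∀ x y, G.Adj x y → 3 ≤ (Nn G x).card)
    (tri : ∀ a b c, G.Adj a b → G.Adj b c → G.Adj c a → False)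
    (four : ∀ a b c d, a ≠ c → b ≠ d → G.Adj a b → G.Adj b c → G.Adj c d → G.Adj d a → False)
    (h18 : 18 ≤ T.card) : ∃ x y a b c d v, Config G x y a b c d v := by
  classical
  by_contra hcon
  have hno : ∀ x y a b c d v, ¬ Config G x y a b c d v :=
    fun x y a b c d v h => hcon ⟨x, y, a, b, c, d, v, h⟩
  -- common neighbours
  have com : ∀ u w : V, u ≠ w → (Nn G u ∩ Nn G w).card ≤ 1 := by
    intro u w huw
    rw [card_le_one]
    intro x hx y hy
    rw [mem_inter, mem_Nn, mem_Nn] at hx hy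
    by_contra hxy
    exact four u x w y huw hxy hx.1 hx.2.symm hy.2 hy.1.symm
  -- every vertex has at most three neighbours
  have hdeg : ∀ a, (Nn G a).card ≤ 3 := by
    intro a
    by_contra h4
    obtain ⟨x, hx⟩ := card_pos.1 (show 0 < (Nn G a).card by omega)
    rw [mem_Nn] at hx
    have hx3 := h3 x a hx.symm
    obtain ⟨y, hy⟩ := card_pos.1 (show 0 < ((Nn G x).erase a).card by
      rw [card_erase_of_mem (mem_Nn.2 hx.symm)]; omega)
    rw [mem_erase, mem_Nn] at hy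
    have hay : ¬ G.Adj a y := fun h => tri a x y hx hy.2 h.symm
    have hc3 : 2 < ((Nn G a).erase x).card := by
      rw [card_erase_of_mem (mem_Nn.2 hx)]; omega
    obtain ⟨u, w, z, hu, hw, hz, huw, huz, hwz⟩ := two_lt_card_iff.1 hc3
    -- the partners
    have part : ∀ u, u ∈ (Nn G a).erase x → ∃ u', G.Adj u u' ∧ u' ≠ a ∧ FarE G x y u u' := by
      intro u hu
      rw [mem_erase, mem_Nn] at hu
      have hux : ¬ G.Adj x u := fun h => tri a x u hx h hu.2.symm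
      have huy' : y ≠ u := fun h => hay (h ▸ hu.2)
      have huy : ¬ G.Adj y u := fun h => four a x y u hy.1.symm hu.1.symm hx hy.2 h hu.2.symm
      have h1 := h3 u a hu.2.symm
      have h2 : (Nn G u ∩ Nn G y).card ≤ 1 := com u y (Ne.symm huy')
      have h5 : 0 < ((Nn G u \ Nn G y).erase a).card := by
        have h6 := card_sdiff_add_card_inter (Nn G u) (Nn G y)
        have h7 := pred_card_le_card_erase (s := Nn G u \ Nn G y) (a := a)
        omega
      obtain ⟨u', hu'⟩ := card_pos.1 h5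
      rw [mem_erase, mem_sdiff, mem_Nn, mem_Nn] at hu'
      refine ⟨u', hu'.2.1, hu'.1, ⟨Ne.symm hu.1, hux⟩, ⟨?_, ?_⟩, ⟨huy', huy⟩, ⟨?_, hu'.2.2⟩⟩
      · intro h
        exact hux (h ▸ hu'.2.1.symm)
      · intro h
        exact four a x u' u hu'.1.symm hu.1.symm hx h hu'.2.1.symm hu.2.symm
      · intro h
        exact huy (h ▸ hu'.2.1.symm)
    obtain ⟨u', u1, u2, u3⟩ := part u hu
    obtain ⟨w', w1, w2, w3⟩ := part w hw
    obtain ⟨z', z1, z2, z3⟩ := part z hz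
    rw [mem_erase, mem_Nn] at hu hw hz
    -- two of the new edges and the third vertex
    have key : ∀ u w u' w' : V, u ≠ w → G.Adj a u → G.Adj a w → G.Adj u u' → G.Adj w w' →
        u' ≠ a → w' ≠ a → ¬ G.Adj u' w' → FarE G u u' w w' := by
      intro u w u' w' huw hu hw huu' hww' hu' hw' hn
      refine ⟨⟨huw, fun h => tri a u w hu h hw.symm⟩, ⟨?_, ?_⟩, ⟨?_, ?_⟩, ⟨?_, hn⟩⟩
      · intro h
        exact tri a w u hw (h ▸ hww') hu.symm
      · intro h
        exact four a u w' w hw'.symm huw hu h hww'.symm hw.symm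
      · intro h
        exact tri a u w hu (h ▸ huu') hw.symm
      · intro h
        exact four a w u' u hu'.symm huw.symm hw h.symm huu'.symm hu.symm
      · intro h
        exact four a u u' w hu'.symm huw hu huu' (h ▸ hww'.symm) hw.symm
    have keyv : ∀ u v u' : V, u ≠ v → G.Adj a u → G.Adj a v → G.Adj u u' → u' ≠ a →
        Far G v u ∧ Far G v u' := by
      intro u v u' huv hu hv huu' hu'
      refine ⟨⟨huv.symm, fun h => tri a v u hv h hu.symm⟩, ⟨?_, ?_⟩⟩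
      · intro h
        exact tri a u v hu (h ▸ huu') hv.symm
      · intro h
        exact four a u u' v hu'.symm huv hu huu' h.symm hv.symm
    have hxv : ∀ v v' : V, FarE G x y v v' → Far G v x ∧ Far G v y :=
      fun v v' h => ⟨h.1.symm, h.2.2.1.symm⟩
    by_cases n1 : G.Adj u' w'
    · by_cases n2 : G.Adj w' z'
      · by_cases n3 : G.Adj u' z'
        · exact tri u' w' z' n1 n2 n3.symm
        · exact hno x y u u' z z' w ⟨⟨a, hw.2.symm⟩, hy.2, u1, z1, u3, z3, key u z u' z' huz hu.2 hz.2 u1 z1 u2 z2 n3,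
            hxv w w' w3, keyv u w u' huw hu.2 hw.2 u1 u2, keyv z w z' hwz.symm hz.2 hw.2 z1 z2⟩
      · exact hno x y w w' z z' u ⟨⟨a, hu.2.symm⟩, hy.2, w1, z1, w3, z3, key w z w' z' hwz hw.2 hz.2 w1 z1 w2 z2 n2,
          hxv u u' u3, keyv w u w' huw.symm hw.2 hu.2 w1 w2, keyv z u z' huz.symm hz.2 hu.2 z1 z2⟩
    · exact hno x y u u' w w' z ⟨⟨a, hz.2.symm⟩, hy.2, u1, w1, u3, w3, key u w u' w' huw hu.2 hw.2 u1 w1 u2 w2 n1,
        hxv z z' z3, keyv u z u' huz hu.2 hz.2 u1 u2, keyv w z w' hwz hw.2 hz.2 w1 w2⟩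
  -- an edge
  obtain ⟨x, hx⟩ := card_pos.1 (show 0 < T.card by omega)
  obtain ⟨y, hxy⟩ := (hT x).1 hx
  -- the rest
  set R : Finset V := T \ (Nn G x ∪ Nn G y) with hRdef
  have hxyU : x ∈ Nn G x ∪ Nn G y ∧ y ∈ Nn G x ∪ Nn G y :=
    ⟨mem_union.2 (Or.inr (mem_Nn.2 hxy.symm)), mem_union.2 (Or.inl (mem_Nn.2 hxy))⟩
  have hRc : T.card ≤ R.card + 6 := by
    have h1 : R.card + (T ∩ (Nn G x ∪ Nn G y)).card = T.card :=
      card_sdiff_add_card_inter T (Nn G x ∪ Nn G y)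
    have h2 : (T ∩ (Nn G x ∪ Nn G y)).card ≤ (Nn G x ∪ Nn G y).card :=
      card_le_card inter_subset_right
    have h3' := card_union_le (Nn G x) (Nn G y)
    have h4 := hdeg x
    have h5 := hdeg y
    omega
  have hfarR : ∀ r ∈ R, Far G x r ∧ Far G y r := by
    intro r hr
    have h1 := (mem_sdiff.1 hr).2
    refine ⟨⟨?_, ?_⟩, ⟨?_, ?_⟩⟩
    · intro h
      exact h1 (h ▸ hxyU.1)
    · intro h
      exact h1 (mem_union.2 (Or.inl (mem_Nn.2 h)))
    · intro h
      exact h1 (h ▸ hxyU.2)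
    · intro h
      exact h1 (mem_union.2 (Or.inr (mem_Nn.2 h)))
  have hRnb : ∀ r ∈ R, ∃ r' ∈ R, G.Adj r r' := by
    intro r hr
    obtain ⟨⟨f1, f2⟩, ⟨f3, f4⟩⟩ := hfarR r hr
    obtain ⟨w, hw⟩ := (hT r).1 (mem_sdiff.1 hr).1
    have h1 := h3 r w hw
    have h2 := com r x f1.symm
    have h4 := com r y f3.symm
    have h5 : 0 < (Nn G r \ (Nn G x ∪ Nn G y)).card := by
      have h6 := card_sdiff_add_card_inter (Nn G r) (Nn G x ∪ Nn G y)
      rw [inter_union_distrib_left] at h6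
      have h7 := card_union_le (Nn G r ∩ Nn G x) (Nn G r ∩ Nn G y)
      omega
    obtain ⟨r', hr'⟩ := card_pos.1 h5
    rw [mem_sdiff, mem_Nn] at hr'
    exact ⟨r', mem_sdiff.2 ⟨(hT r').2 ⟨r, hr'.1.symm⟩, hr'.2⟩, hr'.1⟩
  obtain ⟨a, ha, b, hb, c, hc, d, hd, hab, hcd, hfar⟩ :=
    two_far tri four hRnb (fun r _ => hdeg r) (by omega)
  -- the vertices far from `x y` and `a b`
  set R2 : Finset V := R \ (Nn G a ∪ Nn G b) with hR2def
  have habU : a ∈ Nn G a ∪ Nn G b ∧ b ∈ Nn G a ∪ Nn G b :=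
    ⟨mem_union.2 (Or.inr (mem_Nn.2 hab.symm)), mem_union.2 (Or.inl (mem_Nn.2 hab))⟩
  have hR2c : R.card ≤ R2.card + 6 := by
    have h1 : R2.card + (R ∩ (Nn G a ∪ Nn G b)).card = R.card :=
      card_sdiff_add_card_inter R (Nn G a ∪ Nn G b)
    have h2 : (R ∩ (Nn G a ∪ Nn G b)).card ≤ (Nn G a ∪ Nn G b).card :=
      card_le_card inter_subset_right
    have h3' := card_union_le (Nn G a) (Nn G b)
    have h4 := hdeg a
    have h5 := hdeg b
    omega
  have hfarR2 : ∀ r ∈ R2, Far G a r ∧ Far G b r := by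
    intro r hr
    have h1 := (mem_sdiff.1 hr).2
    refine ⟨⟨?_, ?_⟩, ⟨?_, ?_⟩⟩
    · intro h
      exact h1 (h ▸ habU.1)
    · intro h
      exact h1 (mem_union.2 (Or.inl (mem_Nn.2 h)))
    · intro h
      exact h1 (h ▸ habU.2)
    · intro h
      exact h1 (mem_union.2 (Or.inr (mem_Nn.2 h)))
  have hcR2 : c ∈ R2 := mem_sdiff.2 ⟨hc, by
    rw [mem_union, mem_Nn, mem_Nn, not_or]
    exact ⟨hfar.1.2, hfar.2.2.1.2⟩⟩
  have hdR2 : d ∈ R2 := mem_sdiff.2 ⟨hd, by
    rw [mem_union, mem_Nn, mem_Nn, not_or]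
    exact ⟨hfar.2.1.2, hfar.2.2.2.2⟩⟩
  -- every edge of `R2` dominates `R2`
  have hdom : ∀ c ∈ R2, ∀ d ∈ R2, G.Adj c d → ∀ v ∈ R2, v ∈ Nn G c ∪ Nn G d := by
    intro c hc d hd hcd v hv
    by_contra hv'
    rw [mem_union, mem_Nn, mem_Nn, not_or] at hv'
    have hcR := (mem_sdiff.1 hc).1
    have hdR := (mem_sdiff.1 hd).1
    have hvR := (mem_sdiff.1 hv).1
    obtain ⟨x1, y1⟩ := hfarR a ha
    obtain ⟨x2, y2⟩ := hfarR b hb
    obtain ⟨x3, y3⟩ := hfarR c hcR
    obtain ⟨x4, y4⟩ := hfarR d hdR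
    obtain ⟨x5, y5⟩ := hfarR v hvR
    obtain ⟨a3, b3⟩ := hfarR2 c hc
    obtain ⟨a4, b4⟩ := hfarR2 d hd
    obtain ⟨a5, b5⟩ := hfarR2 v hv
    refine hno x y a b c d v ⟨(hT v).1 (mem_sdiff.1 hvR).1, hxy, hab, hcd, ⟨x1, x2, y1, y2⟩, ⟨x3, x4, y3, y4⟩,
      ⟨a3, a4, b3, b4⟩, ⟨x5.symm, y5.symm⟩, ⟨a5.symm, b5.symm⟩, ⟨⟨?_, ?_⟩, ⟨?_, ?_⟩⟩⟩
    · intro h
      exact hv'.2 (h ▸ hcd.symm)
    · intro h
      exact hv'.1 h.symm
    · intro h
      exact hv'.1 (h ▸ hcd)
    · intro h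
      exact hv'.2 h.symm
  have heq : R2 = Nn G c ∪ Nn G d := by
    apply eq_of_subset_of_card_le (fun v hv => hdom c hcR2 d hdR2 hcd v hv)
    have h3' := card_union_le (Nn G c) (Nn G d)
    have h4 := hdeg c
    have h5 := hdeg d
    omega
  have hc3 := h3 c d hcd
  have hd3 := h3 d c hcd.symm
  obtain ⟨u, hu⟩ := card_pos.1 (show 0 < ((Nn G c).erase d).card by
    rw [card_erase_of_mem (mem_Nn.2 hcd)]; omega)
  obtain ⟨v, hv⟩ := card_pos.1 (show 0 < ((Nn G d).erase c).card by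
    rw [card_erase_of_mem (mem_Nn.2 hcd.symm)]; omega)
  rw [mem_erase, mem_Nn] at hu hv
  have huR : u ∈ R2 := by
    rw [heq]
    exact mem_union.2 (Or.inl (mem_Nn.2 hu.2))
  have hvR : v ∈ R2 := by
    rw [heq]
    exact mem_union.2 (Or.inr (mem_Nn.2 hv.2))
  have h1 := hdom c hcR2 u huR hu.2 v hvR
  rw [mem_union, mem_Nn, mem_Nn] at h1
  rcases h1 with h1 | h1
  · exact tri c d v hcd hv.2 h1.symm
  · exact four c d v u hv.1.symm hu.1.symm hcd hv.2 h1.symm hu.2.symm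

end Pool.Agent.U875.TP
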