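import Pool.Agent.U875.TP.Core
import Pool.Agent.U875.TP.Edges
import Pool.Agent.R769.MN.Mat
import Pool.Agent.R545.IN.Main

/-!
# Graphs without minimal quotients
-/

set_option autoImplicit false
set_option linter.unusedSectionVars false
set_option synthInstance.maxHeartbeats 400000
set_option synthInstance.maxSize 2048

namespace Pool.Agent.U875.TP

open Finset Pool.Agent.TH362.TF Pool.Agent.TH362.TF.Four Pool.Agent.R890.FF Pool.Agent.TH676.Z
open Pool.Agent.N410.DC

variable {V E : Type} [Fintype V] [DecidableEq V] [Fintype E] [DecidableEq E]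

/-- no quotient is minimal -/
def NoMq (s t : E → V) : Prop :=
  ∀ π : V → V, ¬ Mq (fun e => π (s e)) (fun e => π (t e)) univ

/-- **The condition is inherited by quotients.** -/
theorem inh_noMq : Inh (V := V) (E := E) (fun s t _ => NoMq s t) where
  map := fun ρ h π => h (fun v => π (ρ v))
  loops := fun h _ => h
  flow := fun {s t} h h1 => by
    by_contra hc
    rw [not_or] at hc
    obtain ⟨π, hM⟩ := exists_Mq s t univ h1 hc.1 hc.2
    exact h π hM

/-- the class with the empty chain -/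
theorem gcl_of_noMq {s t : E → V} (h : NoMq s t) :
    GCl (V := V) (E := E) (fun s t _ => NoMq s t) s t :=
  ⟨0, fun i => i.elim0, fun i => i.elim0, h⟩

theorem noMq_flow {s t : E → V} (h : NoMq s t) (h1 : N1 s t univ) :
    NZ s t univ ∨ PQ s t univ :=
  inh_noMq.flow h h1

/-- tight partitions -/
theorem noMq_of_quotients {s t : E → V} (h : QuotientsReducible s t) : NoMq s t := by
  classical
  intro π hM
  refine not_reducible hM (h π ?_)
  refine hM.odd18.trans (card_le_card fun y hy => ?_)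
  rw [mem_filter, boundary_single, Nat.odd_iff]
  exact ⟨mem_univ _, (odd_iff_cut _ _ univ y).1 hy⟩

/-- matching number at most eight -/
theorem noMq_of_matching {s t : E → V} (h : ∀ M : Finset E, IsMatching s t M → M.card ≤ 8) :
    NoMq s t := by
  intro π hM
  obtain ⟨M, -, hM1, hM9⟩ := Pool.Agent.R769.MN.Mq.mat9 hM
  have h1 := h M (hM1.of_map π)
  omega

section lift

variable {s t : E → V} {π : V → V}

theorem ends_map {u w : V} {e : E} (h : IsEnds s t u w e) :
    Ends (fun e => π (s e)) (fun e => π (t e)) (π u) (π w) e := by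
  rcases h with ⟨h2, h3⟩ | ⟨h2, h3⟩
  · exact Or.inl ⟨congrArg π h2, congrArg π h3⟩
  · exact Or.inr ⟨congrArg π h2, congrArg π h3⟩

/-- close vertices are mapped to equal or neighbouring vertices of a minimal quotient -/
theorem close_map (hM : Mq (fun e => π (s e)) (fun e => π (t e)) univ) {x y : V}
    (hcl : Close s t x y) :
    π x = π y ∨ Nb (fun e => π (s e)) (fun e => π (t e)) univ (π x) (π y) := by
  classical
  by_contra hcon
  rw [not_or] at hcon
  obtain ⟨hXY, hno⟩ := hcon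
  rcases hcl with h | ⟨e, hE⟩ | ⟨e, f, e', f', a, b, hne, E1, E2, E3, E4⟩
  · exact hXY (congrArg π h)
  · exact hno ⟨Ne.symm hXY, e, mem_univ _, ends_map hE⟩
  · have mid : ∀ (e f : E) (a : V), IsEnds s t x a e → IsEnds s t a y f →
        π a ≠ π x ∧ π a ≠ π y := by
      intro e f a k1 k2
      refine ⟨fun k3 => ?_, fun k3 => ?_⟩
      · have k4 := ends_map (π := π) k2
        rw [k3] at k4
        exact hno ⟨Ne.symm hXY, f, mem_univ _, k4⟩
      · have k4 := ends_map (π := π) k1
        rw [k3] at k4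
        exact hno ⟨Ne.symm hXY, e, mem_univ _, k4⟩
    obtain ⟨A1, A2⟩ := mid e f a E1 E2
    obtain ⟨B1, B2⟩ := mid e' f' b E3 E4
    by_cases hab : π a = π b
    · have k1 := ends_map (π := π) E3
      have k2 := ends_map (π := π) E4
      rw [← hab] at k1 k2
      have k3 := hM.nopar A1.symm (mem_univ e) (mem_univ e') (ends_map E1) k1
      have k4 := hM.nopar A2 (mem_univ f) (mem_univ f') (ends_map E2) k2
      rcases hne with hne | hne
      · exact hne k3
      · exact hne k4
    · exact hM.four (a := π x) (b := π a) (c := π y) (d := π b) hXY hab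
        ⟨A1, e, mem_univ _, ends_map E1⟩ ⟨A2.symm, f, mem_univ _, ends_map E2⟩
        (nb_comm ⟨B2.symm, f', mem_univ _, ends_map E4⟩)
        (nb_comm ⟨B1, e', mem_univ _, ends_map E3⟩)

end lift

/-- among seven vertices two are close -/
theorem noMq_of_seven {s t : E → V} (h : SevenClose s t) : NoMq s t := by
  classical
  intro π hM
  obtain ⟨I, hIc, hnb, hi⟩ := Pool.Agent.R545.IN.Mq_ind7 hM
  have hpre : ∀ y ∈ I, ∃ v, π v = y := by
    intro y hy
    obtain ⟨z, _, e, _, hE⟩ := hnb y hy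
    rcases hE with ⟨h2, _⟩ | ⟨_, h2⟩
    · exact ⟨s e, h2⟩
    · exact ⟨t e, h2⟩
  set φ := (Finset.equivFinOfCardEq hIc).symm with hφ
  choose! g hg using hpre
  have hgφ : ∀ i, π (g (φ i)) = φ i := fun i => hg _ (φ i).2
  obtain ⟨i, j, hij, hcl⟩ := h (fun i => g (φ i)) (by
    intro i j hij
    have h2 := congrArg π hij
    change π (g (φ i)) = π (g (φ j)) at h2
    rw [hgφ, hgφ] at h2
    exact φ.injective (Subtype.ext h2))
  rcases close_map hM hcl with h1 | h1
  · rw [hgφ, hgφ] at h1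
    exact hij (φ.injective (Subtype.ext h1))
  · rw [hgφ, hgφ] at h1
    exact hi _ (φ i).2 _ (φ j).2 h1

/-- among three edges and a vertex two are close -/
theorem noMq_of_three {s t : E → V} (h : ThreeClose s t) : NoMq s t := by
  classical
  intro π hM
  let G : SimpleGraph V :=
    { Adj := Nb (fun e => π (s e)) (fun e => π (t e)) univ
      symm := ⟨fun _ _ h => nb_comm h⟩
      loopless := ⟨fun _ h => h.1 rfl⟩ }
  set T : Finset V := univ.filter (fun x => ∃ y, G.Adj x y) with hT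
  have h3 : ∀ x y, G.Adj x y → 3 ≤ (Pool.Agent.R769.MN.Nn G x).card := by
    intro x y hxy
    have h0 : 0 < (Pool.Agent.R769.MN.Nn G x).card :=
      card_pos.2 ⟨y, Pool.Agent.R769.MN.mem_Nn.2 hxy⟩
    have h1 : (Pool.Agent.R769.MN.Nn G x).card ≠ 1 := hM.nb_ne_one x
    have h2 : (Pool.Agent.R769.MN.Nn G x).card ≠ 2 := hM.nb_ne_two x
    omega
  have h18 : 18 ≤ T.card := by
    refine hM.odd18.trans (card_le_card ?_)
    intro y hy
    rw [hM.odd_nb y] at hy
    have h0 : 0 < (univ.filter (Nb (fun e => π (s e)) (fun e => π (t e)) univ y)).card := by omega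
    obtain ⟨z, hz⟩ := card_pos.1 h0
    exact mem_filter.2 ⟨mem_univ _, z, (mem_filter.1 hz).2⟩
  obtain ⟨x, y, a, b, c, d, v, ⟨w, hvw⟩, hxy, hab, hcd, f1, f2, f3, v1, v2, v3⟩ :=
    three_far (G := G) T (fun x => by simp [hT]) h3
    (fun a b c h1 h2 h3 => hM.tri h1 h2 h3) (fun a b c d hac hbd h1 h2 h3 h4 =>
      hM.four hac hbd h1 h2 h3 h4) h18
  -- the preimages
  have pre : ∀ x y, G.Adj x y → ∃ e, s e ≠ t e ∧
      ((π (s e) = x ∧ π (t e) = y) ∨ (π (s e) = y ∧ π (t e) = x)) := by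
    rintro x y ⟨hne, e, -, hE⟩
    refine ⟨e, fun h => ?_, hE⟩
    rcases hE with ⟨h2, h3⟩ | ⟨h2, h3⟩
    · exact hne (h3.symm.trans ((congrArg π h.symm).trans h2))
    · exact hne (h2.symm.trans ((congrArg π h).trans h3))
  have far_not : ∀ u w : V, Far G (π u) (π w) → ¬ Close s t u w := by
    intro u w h1 h2
    rcases close_map hM h2 with h3 | h3
    · exact h1.1 h3
    · exact h1.2 h3
  have farE_not : ∀ (x y a b : V) (e f : E), FarE G x y a b →
      ((π (s e) = x ∧ π (t e) = y) ∨ (π (s e) = y ∧ π (t e) = x)) →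
      ((π (s f) = a ∧ π (t f) = b) ∨ (π (s f) = b ∧ π (t f) = a)) → ¬ CloseEdges s t e f := by
    rintro x y a b e f ⟨g1, g2, g3, g4⟩ he hf hcl
    rcases he with ⟨e1, e2⟩ | ⟨e1, e2⟩ <;> rcases hf with ⟨k1, k2⟩ | ⟨k1, k2⟩ <;>
      rcases hcl with hc | hc | hc | hc <;>
      refine far_not _ _ ?_ hc <;> simp only [e1, e2, k1, k2] <;> assumption
  have farV_not : ∀ (x y v : V) (e : E), (Far G (π v) x ∧ Far G (π v) y) →
      ((π (s e) = x ∧ π (t e) = y) ∨ (π (s e) = y ∧ π (t e) = x)) → ¬ CloseVertex s t v e := by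
    rintro x y v e ⟨g1, g2⟩ he hcl
    rcases he with ⟨e1, e2⟩ | ⟨e1, e2⟩ <;> rcases hcl with hc | hc <;>
      refine far_not _ _ ?_ hc <;> simp only [e1, e2] <;> assumption
  have hv : ∃ u, π u = v := by
    obtain ⟨-, e, -, hE⟩ := hvw
    rcases hE with ⟨h2, -⟩ | ⟨-, h2⟩
    · exact ⟨s e, h2⟩
    · exact ⟨t e, h2⟩
  obtain ⟨u, rfl⟩ := hv
  obtain ⟨e, he, he'⟩ := pre x y hxy
  obtain ⟨f, hf, hf'⟩ := pre a b hab
  obtain ⟨g, hg, hg'⟩ := pre c d hcd
  rcases h e f g u he hf hg with h1 | h1 | h1 | h1 | h1 | h1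
  · exact farE_not _ _ _ _ e f f1 he' hf' h1
  · exact farE_not _ _ _ _ e g f2 he' hg' h1
  · exact farE_not _ _ _ _ f g f3 hf' hg' h1
  · exact farV_not _ _ u e v1 he' h1
  · exact farV_not _ _ u f v2 hf' h1
  · exact farV_not _ _ u g v3 hg' h1

end Pool.Agent.U875.TP
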