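import Mathlib

set_option autoImplicit false

/-!
# Reducible multigraphs

A finite multigraph has the vertex set `V` and the edge set `E`; the ends of the edge `e` are `s e`
and `t e` (loops and parallel edges are allowed, the order of the ends plays no role).
-/

namespace Pool.Agent.U875.TP

open Finset

variable {V E : Type} [Fintype V] [DecidableEq V] [Fintype E] [DecidableEq E]

/-- The edges with exactly one end in `X`. -/
def boundary (s t : E → V) (X : Finset V) : Finset E :=
  univ.filter (fun e => ¬ (s e ∈ X ↔ t e ∈ X))

/-- The edges which have both ends in `X` and are not loops. -/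
def inner (s t : E → V) (X : Finset V) : Finset E :=
  univ.filter (fun e => s e ∈ X ∧ t e ∈ X ∧ s e ≠ t e)

omit [Fintype V] [DecidableEq V] [Fintype E] [DecidableEq E] in
/-- An edge joins the different vertices `a` and `b`. -/
def Joined (s t : E → V) (a b : V) : Prop :=
  a ≠ b ∧ ∃ e, (s e = a ∧ t e = b) ∨ (s e = b ∧ t e = a)

/-- The multigraph is reducible: there is
(1) a vertex with exactly two boundary edges, or
(2) a triangle, or
(3) a circuit of length four, or
(4) a set of `k ≥ 2` vertices which spans at least `2 k - 2` edges (not loops), or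
(5) a set with at most three boundary edges such that both the set and its complement span an edge, or
(6) a vertex `v` which separates: a set `X` not containing `v`, all boundary edges of which end in
`v`, such that both `X ∪ {v}` and the complement of `X` span an edge. -/
def Reducible (s t : E → V) : Prop :=
  (∃ a, (boundary s t {a}).card = 2) ∨
  (∃ a b c, Joined s t a b ∧ Joined s t b c ∧ Joined s t c a) ∨
  (∃ a b c d, a ≠ c ∧ b ≠ d ∧ Joined s t a b ∧ Joined s t b c ∧ Joined s t c d ∧ Joined s t d a) ∨
  (∃ X : Finset V, 2 ≤ X.card ∧ 2 * X.card ≤ (inner s t X).card + 2) ∨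
  (∃ X : Finset V, (boundary s t X).card ≤ 3 ∧ (inner s t X).Nonempty ∧
    (inner s t Xᶜ).Nonempty) ∨
  (∃ (v : V) (X : Finset V), v ∉ X ∧ (∀ e ∈ boundary s t X, s e = v ∨ t e = v) ∧
    (inner s t (insert v X)).Nonempty ∧ (inner s t Xᶜ).Nonempty)

/-- Every quotient (the ends of the edges are mapped by `p`) with at least 18 vertices with an odd
number of boundary edges is reducible. -/
def QuotientsReducible (s t : E → V) : Prop :=
  ∀ p : V → V, 18 ≤ (univ.filter (fun y => Odd (boundary (p ∘ s) (p ∘ t) {y}).card)).card →
    Reducible (p ∘ s) (p ∘ t)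

/-- The edges of `M` are not loops and no two of them have a common end. -/
def IsMatching (s t : E → V) (M : Finset E) : Prop :=
  (∀ e ∈ M, s e ≠ t e) ∧ ∀ e ∈ M, ∀ f ∈ M, e ≠ f →
    s e ≠ s f ∧ s e ≠ t f ∧ t e ≠ s f ∧ t e ≠ t f

/-- The ends of the edge `e` are `x` and `y`. -/
def IsEnds (s t : E → V) (x y : V) (e : E) : Prop :=
  (s e = x ∧ t e = y) ∨ (s e = y ∧ t e = x)

/-- The vertices `x` and `y` are equal, or joined by an edge, or by two different walks with two
edges. -/
def Close (s t : E → V) (x y : V) : Prop :=
  x = y ∨ (∃ e, IsEnds s t x y e) ∨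
    ∃ (e f e' f' : E) (a b : V), (e ≠ e' ∨ f ≠ f') ∧ IsEnds s t x a e ∧ IsEnds s t a y f ∧
      IsEnds s t x b e' ∧ IsEnds s t b y f'

/-- Some end of the edge `e` is close to some end of the edge `f`. -/
def CloseEdges (s t : E → V) (e f : E) : Prop :=
  Close s t (s e) (s f) ∨ Close s t (s e) (t f) ∨ Close s t (t e) (s f) ∨ Close s t (t e) (t f)

/-- The vertex `v` is close to some end of the edge `e`. -/
def CloseVertex (s t : E → V) (v : V) (e : E) : Prop :=
  Close s t v (s e) ∨ Close s t v (t e)

/-- Of three edges (not loops) and a vertex always two are close. -/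
def ThreeClose (s t : E → V) : Prop :=
  ∀ (e f g : E) (v : V), s e ≠ t e → s f ≠ t f → s g ≠ t g →
    CloseEdges s t e f ∨ CloseEdges s t e g ∨ CloseEdges s t f g ∨
      CloseVertex s t v e ∨ CloseVertex s t v f ∨ CloseVertex s t v g

/-- Of seven different vertices always two are close. -/
def SevenClose (s t : E → V) : Prop :=
  ∀ x : Fin 7 → V, Function.Injective x → ∃ i j, i ≠ j ∧ Close s t (x i) (x j)

end Pool.Agent.U875.TP
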