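import Pool.Agent.N410.DC.Part
import Pool.Agent.U875.TP.Defs

/-!
# Minimal quotients are not reducible
-/

set_option autoImplicit false
set_option linter.unusedSectionVars false
set_option synthInstance.maxHeartbeats 400000
set_option synthInstance.maxSize 2048

namespace Pool.Agent.U875.TP

open Finset Pool.Agent.TH362.TF Pool.Agent.TH362.TF.Four Pool.Agent.R890.FF Pool.Agent.TH676.Z
open Pool.Agent.N410.DC Pool.Agent.TH362.TF.Red

variable {V E : Type} [Fintype V] [DecidableEq V] [Fintype E] [DecidableEq E]

/-- a flow of the quotient in which the side `x = true` is one vertex -/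
theorem side' {s t : E → V} (h : Mq s t univ) (x : V → Bool) (e1 : E) (hne : s e1 ≠ t e1)
    (h1 : x (s e1) = true) (h2 : x (t e1) = true) :
    ∃ φ : E → F, (∀ e, φ e ≠ 0) ∧ (∀ v, x v = false → Cons s t univ φ v) := by
  obtain ⟨φ, hφ1, hφ2⟩ := h.mn (fun v => if x v = true then s e1 else v)
    ⟨e1, mem_univ _, hne, by simp [h1, h2]⟩
  refine ⟨φ, fun e => hφ1 e (mem_univ _), ?_⟩
  intro v hv
  have h3 := hφ2 v
  have key : ∀ u : V, ((if x u = true then s e1 else u) = v) ↔ u = v := by
    intro u
    by_cases hu : x u = true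
    · rw [if_pos hu]
      constructor
      · intro hh
        rw [← hh, h1] at hv
        exact absurd hv (by decide)
      · intro hh
        rw [hh, hv] at hu
        exact absurd hu (by decide)
    · rw [if_neg hu]
  rw [cons_iff] at h3 ⊢
  rw [← h3]
  refine sum_congr rfl fun e _ => ?_
  unfold tm
  simp only [key]

/-- **small cuts** -/
theorem smallcut' {s t : E → V} (h : Mq s t univ) (x : V → Bool)
    (hx : (cut s t univ x).card ≤ 3) :
    (∀ e, s e ≠ t e → ¬ (x (s e) = true ∧ x (t e) = true)) ∨
      (∀ e, s e ≠ t e → ¬ (x (s e) = false ∧ x (t e) = false)) := by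
  by_contra hcon
  push Not at hcon
  obtain ⟨⟨e1, he1, h11, h12⟩, ⟨e2, he2, h21, h22⟩⟩ := hcon
  obtain ⟨φ1, n1, c1⟩ := side' h x e1 he1 h11 h12
  obtain ⟨φ2, n2, c2⟩ := side' h (fun v => !x v) e2 he2 (by simp [h21]) (by simp [h22])
  have s1 : ∑ e ∈ cut s t univ x, φ1 e = 0 := by
    have h3 := flow_cut (s := s) (t := t) (S := univ) (φ := φ1) (fun v => !x v) (by
      intro v hv
      exact c1 v (by simpa using hv))
    rw [← cut_not]
    exact h3
  have s2 : ∑ e ∈ cut s t univ x, φ2 e = 0 :=
    flow_cut (s := s) (t := t) (S := univ) (φ := φ2) x (by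
      intro v hv
      exact c2 v (by simp [hv]))
  obtain ⟨σ, hσ, hσ2⟩ := matchC (h.n1 x) hx φ1 φ2 (fun c _ => n1 c) (fun c _ => n2 c) s1 s2
  apply h.nz
  refine ⟨fun e => if x (s e) = true ∧ x (t e) = true then σ (φ2 e) else φ1 e, ?_, ?_⟩
  · intro e he
    by_cases hh : x (s e) = true ∧ x (t e) = true
    · simp only [hh, and_self, if_true]
      exact hσ _ (n2 e)
    · simp only [if_neg hh]
      exact n1 e
  · intro v
    cases hv : x v
    · have h5 := c1 v hv
      rw [cons_iff] at h5 ⊢
      rw [← h5]
      refine sum_congr rfl fun e _ => ?_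
      unfold tm
      by_cases h6 : s e = v
      · have : ¬ (x (s e) = true ∧ x (t e) = true) := by rw [h6, hv]; simp
        simp only [if_neg this]
      · by_cases h7 : t e = v
        · have : ¬ (x (s e) = true ∧ x (t e) = true) := by rw [h7, hv]; simp
          simp only [if_neg this]
        · simp only [if_neg h6, if_neg h7]
    · have h5 := c2 v (by simp [hv])
      rw [cons_iff] at h5 ⊢
      have h8 : ∑ e, tm s t (fun e => if x (s e) = true ∧ x (t e) = true then σ (φ2 e)
          else φ1 e) v e = σ (∑ e, tm s t φ2 v e) := by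
        rw [map_sum]
        refine sum_congr rfl fun e _ => ?_
        have h9 : x (s e) = true ∨ x (t e) = true → (if x (s e) = true ∧ x (t e) = true
            then σ (φ2 e) else φ1 e) = σ (φ2 e) := by
          intro hor
          by_cases hh : x (s e) = true ∧ x (t e) = true
          · rw [if_pos hh]
          · rw [if_neg hh]
            refine (hσ2 e ?_).symm
            rw [cut, mem_filter]
            refine ⟨mem_univ _, fun heq => hh ?_⟩
            rcases hor with h10 | h10
            · exact ⟨h10, heq ▸ h10⟩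
            · exact ⟨heq ▸ h10, h10⟩
        unfold tm
        rw [map_add]
        congr 1
        · by_cases h6 : s e = v
          · simp only [if_pos h6]
            exact h9 (Or.inl (h6 ▸ hv))
          · simp only [if_neg h6, map_zero]
        · by_cases h6 : t e = v
          · simp only [if_pos h6]
            exact h9 (Or.inr (h6 ▸ hv))
          · simp only [if_neg h6, map_zero]
      rw [h8, h5, map_zero]

/-- conservation at all vertices but one is conservation at all vertices -/
theorem cons_last (s t : E → V) (φ : E → F) (v : V) (h : ∀ u, u ≠ v → Cons s t univ φ u) :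
    ∀ u, Cons s t univ φ u := by
  intro u
  by_cases hu : u = v
  · subst hu
    have h1 := flow_cut (s := s) (t := t) (S := univ) (φ := φ) (fun w => decide (w ≠ u)) (by
      intro w hw
      exact h w (by simpa using hw))
    rw [cons_iff, ← h1]
    symm
    have h2 : ∑ e ∈ cut s t univ (fun w => decide (w ≠ u)), φ e =
        ∑ e ∈ cut s t univ (fun w => decide (w ≠ u)), tm s t φ u e := by
      refine sum_congr rfl fun e he => ?_
      have h3 := (mem_filter.1 he).2
      unfold tm
      by_cases h4 : s e = u
      · by_cases h5 : t e = u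
        · exact absurd (by simp [h4, h5]) h3
        · rw [if_pos h4, if_neg h5, add_zero]
      · by_cases h5 : t e = u
        · rw [if_neg h4, if_pos h5, zero_add]
        · exact absurd (by simp [h4, h5]) h3
    rw [h2]
    apply sum_subset (subset_univ _)
    intro e _ he
    unfold tm
    by_cases h4 : s e = u
    · by_cases h5 : t e = u
      · rw [if_pos h4, if_pos h5]
        exact add_self _
      · exact absurd (mem_filter.2 ⟨mem_univ _, by simp [h4, h5]⟩) he
    · by_cases h5 : t e = u
      · exact absurd (mem_filter.2 ⟨mem_univ _, by simp [h4, h5]⟩) he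
      · rw [if_neg h4, if_neg h5, add_zero]
  · exact h u hu

/-- **there is no separating vertex** -/
theorem no_cutvertex {s t : E → V} (h : Mq s t univ) (v : V) (X : Finset V) (hv : v ∉ X)
    (hb : ∀ e, ¬ (s e ∈ X ↔ t e ∈ X) → s e = v ∨ t e = v) (e1 e2 : E) (hne1 : s e1 ≠ t e1)
    (hne2 : s e2 ≠ t e2) (h1 : s e1 ∈ insert v X ∧ t e1 ∈ insert v X)
    (h2 : s e2 ∉ X ∧ t e2 ∉ X) : False := by
  obtain ⟨φ2, n2, c2⟩ := side' h (fun u => decide (u ∈ insert v X)) e1 hne1 (by simp [h1.1])
    (by simp [h1.2])
  obtain ⟨φ1, n1, c1⟩ := side' h (fun u => decide (u ∉ X)) e2 hne2 (by simp [h2.1])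
    (by simp [h2.2])
  apply h.nz
  refine ⟨fun e => if s e ∈ X ∨ t e ∈ X then φ1 e else φ2 e, ?_, ?_⟩
  · intro e _
    by_cases hh : s e ∈ X ∨ t e ∈ X
    · simp only [if_pos hh]
      exact n1 e
    · simp only [if_neg hh]
      exact n2 e
  · refine cons_last s t _ v ?_
    intro u hu
    by_cases huX : u ∈ X
    · have h5 := c1 u (by simp [huX])
      rw [cons_iff] at h5 ⊢
      rw [← h5]
      refine sum_congr rfl fun e _ => ?_
      unfold tm
      by_cases h6 : s e = u
      · have : s e ∈ X ∨ t e ∈ X := Or.inl (h6 ▸ huX)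
        simp only [if_pos this]
      · by_cases h7 : t e = u
        · have : s e ∈ X ∨ t e ∈ X := Or.inr (h7 ▸ huX)
          simp only [if_pos this]
        · simp only [if_neg h6, if_neg h7]
    · have h5 := c2 u (by simp [hu, huX])
      rw [cons_iff] at h5 ⊢
      rw [← h5]
      refine sum_congr rfl fun e _ => ?_
      have key : s e = u ∨ t e = u → ¬ (s e ∈ X ∨ t e ∈ X) := by
        intro hor hh
        have h8 : ¬ (s e ∈ X ↔ t e ∈ X) := by
          intro h9
          rcases hor with h10 | h10
          · rcases hh with h11 | h11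
            · exact huX (h10 ▸ h11)
            · exact huX (h10 ▸ h9.2 h11)
          · rcases hh with h11 | h11
            · exact huX (h10 ▸ h9.1 h11)
            · exact huX (h10 ▸ h11)
        have h12 := hb e h8
        rcases hor with h10 | h10 <;> rcases h12 with h13 | h13
        · exact hu (h10.symm.trans h13)
        · apply h8
          rw [h10, h13]
          exact ⟨fun h => absurd h huX, fun h => absurd h hv⟩
        · apply h8
          rw [h10, h13]
          exact ⟨fun h => absurd h hv, fun h => absurd h huX⟩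
        · exact hu (h10.symm.trans h13)
      unfold tm
      by_cases h6 : s e = u
      · simp only [if_neg (key (Or.inl h6))]
      · by_cases h7 : t e = u
        · simp only [if_neg (key (Or.inr h7))]
        · simp only [if_neg h6, if_neg h7]

theorem nb_of_joined {s t : E → V} {a b : V} (h : Joined s t a b) : Nb s t univ a b :=
  ⟨h.1.symm, h.2.imp fun _ he => ⟨mem_univ _, he⟩⟩

theorem joined_of_nb {s t : E → V} {a b : V} (h : Nb s t univ a b) : Joined s t a b :=
  ⟨h.1.symm, h.2.imp fun _ he => he.2⟩

theorem boundary_eq_cut (s t : E → V) (X : Finset V) :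
    cut s t univ (fun v => decide (v ∈ X)) = boundary s t X := cut_eq_crs s t X

/-- **minimal quotients are not reducible** -/
theorem not_reducible {s t : E → V} (h : Mq s t univ) : ¬ Reducible s t := by
  classical
  rintro (⟨a, ha⟩ | ⟨a, b, c, h1, h2, h3⟩ | ⟨a, b, c, d, hac, hbd, h1, h2, h3, h4⟩ | ⟨X, h1, h2⟩ |
    ⟨X, h1, h2, h3⟩ | ⟨v, X, hv, hb, h1, h2⟩)
  · refine h.nb_ne_two a ?_
    rw [← h.cut_nb a, ← ha, ← boundary_eq_cut]
    congr 2
    funext u
    simp
  · exact h.tri (nb_of_joined h1) (nb_of_joined h2) (nb_of_joined h3)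
  · exact h.four hac hbd (nb_of_joined h1) (nb_of_joined h2) (nb_of_joined h3) (nb_of_joined h4)
  · have h3 := sparse h X h1
    have h4 : (eIn s t X).card = (inner s t X).card := by
      congr 1
    omega
  · obtain ⟨e1, he1⟩ := h2
    obtain ⟨e2, he2⟩ := h3
    have k1 := (mem_filter.1 he1).2
    have k2 := (mem_filter.1 he2).2
    rcases smallcut' h (fun u => decide (u ∈ X)) (by rw [boundary_eq_cut]; exact h1) with h4 | h4
    · exact h4 e1 k1.2.2 (by simp [k1.1, k1.2.1])
    · refine h4 e2 k2.2.2 ?_
      have k3 := mem_compl.1 k2.1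
      have k4 := mem_compl.1 k2.2.1
      simp [k3, k4]
  · obtain ⟨e1, he1⟩ := h1
    obtain ⟨e2, he2⟩ := h2
    have k1 := (mem_filter.1 he1).2
    have k2 := (mem_filter.1 he2).2
    exact no_cutvertex h v X hv (fun e he => hb e (mem_filter.2 ⟨mem_univ _, he⟩)) e1 e2 k1.2.2
      k2.2.2 ⟨k1.1, k1.2.1⟩ ⟨mem_compl.1 k2.1, mem_compl.1 k2.2.1⟩

theorem boundary_single (s t : E → V) (y : V) : boundary s t {y} = ct s t y := by
  ext e
  rw [mem_ct]
  simp [boundary]

end Pool.Agent.U875.TP
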